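import Pool.Agent.Helper57.MT.Goals

/-!
Packet MC2-MT2: Maynard's lower bound for every number of points.
-/

set_option autoImplicit false

open Finset Filter Topology

open scoped Classical

namespace Pool.Agent.Helper13.MT

open Pool.Agent.Helper23.MC (Ad NH VH TH kH rs Tj kj StmtIJ StmtNU StmtNL)
open Pool.Agent.Helper88.PP (SS ee)
open Pool.Agent.Helper57.MT

theorem exA (C0 c : ℝ) (hC : 1 ≤ C0) (hc : 0 < c) :
    ∃ A : ℝ, 390 ≤ A ∧ 256 * C0 * (Real.log (A + 202) + 2) ≤ c * A := by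
  have h1 : ∀ᶠ u : ℝ in atTop, ‖Real.log u‖ ≤ c / (1024 * C0) * ‖id u‖ :=
    (Real.isLittleO_log_id_atTop).bound (by positivity)
  have h2 : ∀ᶠ u : ℝ in atTop, 1024 * C0 / c + 404 + 600 ≤ u := eventually_ge_atTop _
  obtain ⟨u, hu1, hu2⟩ := (h1.and h2).exists
  have h5 : 0 < 1024 * C0 / c := by positivity
  have hu0 : 0 < u := by linarith
  have h3 : Real.log u ≤ c / (1024 * C0) * u := by
    have h4 : Real.log u ≤ ‖Real.log u‖ := Real.le_norm_self _
    rw [id, Real.norm_of_nonneg hu0.le] at hu1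
    exact h4.trans hu1
  refine ⟨u - 202, by linarith, ?_⟩
  rw [sub_add_cancel]
  have h6 : 256 * C0 * Real.log u ≤ c * u / 4 := by
    calc 256 * C0 * Real.log u ≤ 256 * C0 * (c / (1024 * C0) * u) :=
          mul_le_mul_of_nonneg_left h3 (by positivity)
      _ = c * u / 4 := by
          field_simp
          norm_num
  have h7 : 1024 * C0 + 404 * c ≤ c * u := by
    have h8 : (1024 * C0 / c + 404) * c ≤ u * c := mul_le_mul_of_nonneg_right (by linarith) hc.le
    rw [add_mul, div_mul_cancel₀ _ hc.ne'] at h8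
    linarith
  nlinarith only [hC, hc, h6, h7]

theorem one_le_log {K : ℕ} (hK : 1 ≤ K) : 1 ≤ Real.log ((K : ℝ) + 2) := by
  have h1 : (3 : ℝ) ≤ (K : ℝ) + 2 := by
    have : (1 : ℝ) ≤ K := by exact_mod_cast hK
    linarith
  rw [Real.le_log_iff_exp_le (by linarith)]
  have := Real.exp_one_lt_d9
  linarith

theorem beta_facts (K : ℕ) (hK : 1 ≤ K) (A : ℝ) (hA : 390 ≤ A) (β : ℕ)
    (hβ : β = ⌈A * (K * Real.log ((K : ℝ) + 2))⌉₊ + 200) :
    200 ≤ β ∧ A * (K * Real.log ((K : ℝ) + 2)) ≤ β ∧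
    (β : ℝ) ≤ (A + 201) * (K * Real.log ((K : ℝ) + 2)) ∧
    Real.log ((K : ℝ) + 2) ≤ Real.log ((β : ℝ) / 130) ∧
    Real.log (1 + (β : ℝ)) ≤ (Real.log (A + 202) + 2) * Real.log ((K : ℝ) + 2) := by
  have hK1 : (1 : ℝ) ≤ K := by exact_mod_cast hK
  have hl := one_le_log hK
  set l := Real.log ((K : ℝ) + 2) with hldef
  have hKl : 1 ≤ (K : ℝ) * l := by nlinarith only [hK1, hl]
  have hA0 : 0 ≤ A * (K * l) := by positivity
  have h1 : A * (K * l) ≤ ⌈A * (K * l)⌉₊ := Nat.le_ceil _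
  have h2 : (⌈A * (K * l)⌉₊ : ℝ) < A * (K * l) + 1 := Nat.ceil_lt_add_one hA0
  have h3 : (β : ℝ) = ⌈A * (K * l)⌉₊ + 200 := by
    rw [hβ]
    push_cast
    ring
  refine ⟨by omega, by linarith, by nlinarith only [hKl, h2, h3], ?_, ?_⟩
  · rw [hldef]
    apply Real.log_le_log (by linarith)
    rw [le_div_iff₀ (by norm_num)]
    have h4 : (K : ℝ) ≤ K * l := by nlinarith only [hl]
    have h5 : 390 * (K : ℝ) ≤ A * (K * l) := by nlinarith only [hA, h4, hKl]
    nlinarith only [hK1, h1, h3, h5]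
  · have h4 : 1 + (β : ℝ) ≤ (A + 202) * (K * l) := by nlinarith only [hKl, h2, h3]
    have h5 : l ≤ (K : ℝ) + 2 := by
      have := Real.log_le_sub_one_of_pos (show (0 : ℝ) < (K : ℝ) + 2 by linarith)
      linarith
    have h6 : Real.log ((K : ℝ) * l) ≤ 2 * l := by
      have h7 : Real.log ((K : ℝ) * l) ≤ Real.log (((K : ℝ) + 2) * ((K : ℝ) + 2)) := by
        apply Real.log_le_log (by linarith)
        exact mul_le_mul (by linarith) h5 (by linarith) (by linarith)
      have h7' : Real.log (((K : ℝ) + 2) * ((K : ℝ) + 2)) = l + l :=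
        Real.log_mul (by linarith) (by linarith)
      linarith only [h7, h7']
    have h8 : Real.log (1 + (β : ℝ)) ≤ Real.log ((A + 202) * (K * l)) :=
      Real.log_le_log (by positivity) h4
    rw [Real.log_mul (by linarith only [hA]) (by linarith only [hKl])] at h8
    have h9 : 0 ≤ Real.log (A + 202) := Real.log_nonneg (by linarith only [hA])
    nlinarith only [h6, h8, hl, h9]

theorem mt2 (h1 : StmtIJ) (h2 : StmtNU) (h3 : StmtNL) (h4 : StmtNL1) : StmtMT2 := by
  intro c3 hc3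
  obtain ⟨c, C0, hc, hC0, hIJ⟩ := h1
  obtain ⟨A, hA, hA2⟩ := exA C0 c hC0 hc
  refine ⟨c3 * c ^ 2 / (2 * C0 * (A + 201)), by positivity, fun K hK => ?_⟩
  obtain ⟨β, hβ⟩ : ∃ β : ℕ, β = ⌈A * (K * Real.log ((K : ℝ) + 2))⌉₊ + 200 := ⟨_, rfl⟩
  obtain ⟨b1, b2, b3, b4, b5⟩ := beta_facts K hK A hA β hβ
  have hl := one_le_log hK
  have hK1 : (1 : ℝ) ≤ K := by exact_mod_cast hK
  set l := Real.log ((K : ℝ) + 2) with hldef
  refine ⟨β, C0, hC0, β + 64 * K + 64, fun E z hE hz H hH => ?_⟩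
  have hE64 : 64 ≤ E := by omega
  have hz2 : 2 ≤ z := by omega
  have hβE : β ≤ E := by omega
  have hKE : K ≤ E / 64 := by omega
  obtain ⟨i1, i2, i3, i4, i5⟩ := hIJ E z β hE64 hz2 b1 hβE
  obtain ⟨n1, n2, n3⟩ := h2 E z β hE64 hz2 hβE H (by omega)
  set I1 := ∑ s ∈ SS z (z ^ (E / 64)), 1 / ((Nat.totient s : ℝ) * (E + β * ee z s)) with hI1
  set I2 := ∑ s ∈ SS z (z ^ (E / 64)), 1 / ((Nat.totient s : ℝ) * (E + β * ee z s) ^ 2) with hI2
  set J := ∑ s ∈ SS z (z ^ (E / 64)),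
    (ee z s : ℝ) / ((Nat.totient s : ℝ) * (E + β * ee z s) ^ 2) with hJ
  have hβ0 : (0 : ℝ) < β := by
    have : 0 < β := by omega
    exact_mod_cast this
  have hE0 : (0 : ℝ) < E := by
    have : 0 < E := by omega
    exact_mod_cast this
  have hI20 : 0 < I2 := lt_of_lt_of_le (by positivity) i4
  have hI1C : I1 ≤ C0 := by
    refine i2.trans ?_
    have h5 : Real.log (1 + (β : ℝ)) ≤ β := by
      have := Real.log_le_sub_one_of_pos (show (0 : ℝ) < 1 + (β : ℝ) by linarith only [hβ0])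
      linarith only [this]
    rw [div_mul_eq_mul_div, div_le_iff₀ hβ0]
    exact mul_le_mul_of_nonneg_left h5 (by linarith only [hC0])
  -- the lower bounds for the restricted norms
  have hres : ∀ j ∈ H, Ad C0 E z (H.erase j) (Tj H j (TH E z H)) (kj H j (TH E z H) (kH E z β H)) ∧
      I1 ^ 2 * I2 ^ (K - 1) / 2 ≤
        NH (H.erase j) (Tj H j (TH E z H)) (kj H j (TH E z H) (kH E z β H)) := by
    intro j hj
    rcases Nat.lt_or_ge K 2 with hK2 | hK2
    · have hK1' : K = 1 := by omega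
      obtain ⟨a1, a2⟩ := h4 E z β hE64 hz2 hβE H (by rw [hH, hK1']) j hj I1 C0 hI1 hI1C hC0
      refine ⟨a1, le_trans ?_ a2⟩
      rw [hK1']
      simp only [Nat.sub_self, pow_zero, mul_one]
      have : 0 ≤ I1 ^ 2 := sq_nonneg _
      linarith only [this]
    · obtain ⟨a1, a2⟩ := h3 E z β hE64 hz2 hβE H (by rw [hH]; exact hK2) (by rw [hH]; exact hKE)
        j hj I1 I2 J C0 hI1 hI2 hJ hI1C hC0
      refine ⟨a1, le_trans ?_ a2⟩
      rw [hH]
      have hM : (E : ℝ) / 128 ≤ ((E / 64 : ℕ) : ℝ) := by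
        have h5 : E ≤ 128 * (E / 64) := by omega
        have h6 : (E : ℝ) ≤ 128 * ((E / 64 : ℕ) : ℝ) := by exact_mod_cast h5
        linarith only [h6]
      have hM0 : (0 : ℝ) < ((E / 64 : ℕ) : ℝ) := lt_of_lt_of_le (by positivity) hM
      have hJ0 : 0 ≤ J := by
        rw [hJ]
        exact Finset.sum_nonneg fun s _ => by positivity
      have hkey : ((K - 1 : ℕ) : ℝ) / ((E / 64 : ℕ) : ℝ) * J ≤ I2 / 2 := by
        have h5 : ((K - 1 : ℕ) : ℝ) ≤ K := by exact_mod_cast Nat.sub_le _ _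
        have h6 : ((K - 1 : ℕ) : ℝ) / ((E / 64 : ℕ) : ℝ) ≤ K / ((E : ℝ) / 128) :=
          div_le_div₀ (by linarith only [hK1]) h5 (by positivity) hM
        have h7 : 256 * C0 * (K * Real.log (1 + (β : ℝ))) ≤ c * β := by
          calc 256 * C0 * (K * Real.log (1 + (β : ℝ)))
              ≤ 256 * C0 * (K * ((Real.log (A + 202) + 2) * l)) := by gcongr
            _ = (256 * C0 * (Real.log (A + 202) + 2)) * (K * l) := by ring
            _ ≤ (c * A) * (K * l) := by gcongr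
            _ = c * (A * (K * l)) := by ring
            _ ≤ c * β := by gcongr
        calc ((K - 1 : ℕ) : ℝ) / ((E / 64 : ℕ) : ℝ) * J
            ≤ K / ((E : ℝ) / 128) * (C0 / β ^ 2 * Real.log (1 + (β : ℝ))) :=
              mul_le_mul h6 i5 hJ0 (by positivity)
          _ = (256 * C0 * (K * Real.log (1 + (β : ℝ)))) / (2 * E * β ^ 2) := by
              rw [div_div_eq_mul_div]
              field_simp
              ring
          _ ≤ (c * β) / (2 * E * β ^ 2) := by gcongr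
          _ = c / (β * E) / 2 := by
              field_simp
          _ ≤ I2 / 2 := by linarith only [i4]
      obtain ⟨r, hr⟩ : ∃ r, K = r + 2 := ⟨K - 2, by omega⟩
      have h8 : I2 ^ (K - 1) = I2 ^ (K - 2) * I2 := by
        rw [hr]
        rfl
      have h9 : I1 ^ 2 * I2 ^ (K - 1) / 2 = I1 ^ 2 * (I2 ^ (K - 2) * (I2 / 2)) := by
        rw [h8]
        ring
      rw [h9]
      apply mul_le_mul_of_nonneg_left _ (sq_nonneg _)
      have h10 : I2 ^ (K - 2) * (((K - 1 : ℕ) : ℝ) / ((E / 64 : ℕ) : ℝ) * J) ≤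
          I2 ^ (K - 2) * (I2 / 2) := mul_le_mul_of_nonneg_left hkey (by positivity)
      rw [h8]
      nlinarith only [h10]
  refine ⟨n1, fun j hj => (hres j hj).1, by rw [← hH]; exact n2, ?_⟩
  rw [hH] at n3
  have hlog : 0 ≤ Real.log ((β : ℝ) / 130) := by linarith only [b4, hl]
  have hI1low : c / β * l ≤ I1 :=
    le_trans (mul_le_mul_of_nonneg_left b4 (by positivity)) i1
  have hI1sq : (c / β * l) ^ 2 ≤ I1 ^ 2 := pow_le_pow_left₀ (by positivity) hI1low 2
  have hsum : (K : ℝ) * (I1 ^ 2 * I2 ^ (K - 1) / 2) ≤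
      ∑ j ∈ H, NH (H.erase j) (Tj H j (TH E z H)) (kj H j (TH E z H) (kH E z β H)) := by
    have h5 := Finset.card_nsmul_le_sum H
      (fun j => NH (H.erase j) (Tj H j (TH E z H)) (kj H j (TH E z H) (kH E z β H)))
      (I1 ^ 2 * I2 ^ (K - 1) / 2) (fun j hj => (hres j hj).2)
    rw [nsmul_eq_mul, hH] at h5
    exact h5
  obtain ⟨r, hr⟩ : ∃ r, K = r + 1 := ⟨K - 1, by omega⟩
  have hpow : I2 ^ K = I2 ^ (K - 1) * I2 := by
    rw [hr]
    rfl
  have hP0 : 0 ≤ I2 ^ (K - 1) := by positivity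
  calc c3 * c ^ 2 / (2 * C0 * (A + 201)) * l * NH H (TH E z H) (kH E z β H)
      ≤ c3 * c ^ 2 / (2 * C0 * (A + 201)) * l * (I2 ^ (K - 1) * (C0 / (β * E))) := by
        apply mul_le_mul_of_nonneg_left _ (by positivity)
        refine n3.trans ?_
        rw [hpow]
        exact mul_le_mul_of_nonneg_left i3 hP0
    _ = c3 / E * (I2 ^ (K - 1) / 2) * (c ^ 2 * l / ((A + 201) * β)) := by
        field_simp
    _ ≤ c3 / E * (I2 ^ (K - 1) / 2) * (K * (c / β * l) ^ 2) := by
        apply mul_le_mul_of_nonneg_left _ (by positivity)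
        rw [div_le_iff₀ (by positivity)]
        have h5 : (K : ℝ) * (c / β * l) ^ 2 * ((A + 201) * β) =
            c ^ 2 * l * (((A + 201) * (K * l)) / β) := by
          field_simp
        rw [h5]
        have h6 : 1 ≤ ((A + 201) * (K * l)) / β := by
          rw [le_div_iff₀ hβ0]
          linarith only [b3]
        have h7 : 0 ≤ c ^ 2 * l := by positivity
        nlinarith only [h6, h7]
    _ ≤ c3 / E * (I2 ^ (K - 1) / 2) * (K * I1 ^ 2) := by
        gcongr
    _ = c3 / E * (K * (I1 ^ 2 * I2 ^ (K - 1) / 2)) := by ring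
    _ ≤ _ := mul_le_mul_of_nonneg_left hsum (by positivity)

end Pool.Agent.Helper13.MT
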