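import Pool.Agent.Helper28.MT.Goals

set_option autoImplicit false

namespace Pool.Agent.Helper13.MT

open Finset
open Pool.Agent.Helper55.Rota
open Pool.Agent.Helper28.MT

theorem mt_x : G_X := by
  intro α _ _ R n k b t hk hb hind I F hF hlt
  have hA : (blkU b I).card = k * I.card := by
    rw [card_eq_sum_card_fiberwise (f := b) (t := I) (fun x hx => by
      have := mem_blkU.1 (mem_coe.1 hx); exact_mod_cast this)]
    rw [sum_congr rfl (g := fun _ => k)]
    · rw [sum_const, smul_eq_mul, mul_comm]
    · intro i hi
      rw [← hb i]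
      congr 1
      ext x
      simp only [mem_filter, mem_univ, true_and, mem_blkU]
      constructor
      · exact fun h => h.2
      · exact fun h => ⟨h ▸ hi, h⟩
  have hfib : ∀ S : Finset α, S.card = ∑ j : Fin k, (S.filter (fun x => t x = j)).card := fun S =>
    card_eq_sum_card_fiberwise (fun x _ => mem_coe.2 (mem_univ (t x)))
  have hz : ∀ j : Fin k, ((blkU b I ∩ F).filter (fun x => t x = j)).card ≤ R.r F := by
    intro j
    refine (hind j _ (fun x hx => (mem_filter.1 hx).2)).trans (R.mono ?_)
    intro x hx
    exact (mem_inter.1 (mem_filter.1 hx).1).2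
  have hsplit : (blkU b I \ F).card + (blkU b I ∩ F).card = k * I.card := by
    rw [card_sdiff_add_card_inter, hA]
  have hsumz : (blkU b I ∩ F).card ≤ k * R.r F := by
    rw [hfib (blkU b I ∩ F)]
    calc ∑ j : Fin k, ((blkU b I ∩ F).filter (fun x => t x = j)).card
        ≤ ∑ _j : Fin k, R.r F := sum_le_sum fun j _ => hz j
      _ = k * R.r F := by rw [sum_const, card_univ, Fintype.card_fin, smul_eq_mul]
  refine ⟨?_, ?_⟩
  · rw [Nat.mul_sub]
    omega
  · have hex : ∃ j : Fin k, k * (((blkU b I \ F).filter (fun x => t x = j)).card +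
        (R.r F - ((blkU b I ∩ F).filter (fun x => t x = j)).card)) ≤ 2 * (blkU b I \ F).card := by
      by_contra hcon
      push Not at hcon
      have h1 : ∑ _j : Fin k, 2 * (blkU b I \ F).card <
          ∑ j : Fin k, k * (((blkU b I \ F).filter (fun x => t x = j)).card +
            (R.r F - ((blkU b I ∩ F).filter (fun x => t x = j)).card)) := by
        apply sum_lt_sum_of_nonempty
        · exact ⟨⟨0, hk⟩, mem_univ _⟩
        · exact fun j _ => hcon j
      rw [sum_const, card_univ, Fintype.card_fin, smul_eq_mul, ← mul_sum] at h1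
      have h2 := Nat.lt_of_mul_lt_mul_left h1
      have h3 : ∑ j : Fin k, (((blkU b I \ F).filter (fun x => t x = j)).card +
            (R.r F - ((blkU b I ∩ F).filter (fun x => t x = j)).card)) + (blkU b I ∩ F).card
          = (blkU b I \ F).card + k * R.r F := by
        rw [hfib (blkU b I ∩ F), hfib (blkU b I \ F), ← sum_add_distrib]
        have : (k * R.r F) = ∑ _j : Fin k, R.r F := by
          rw [sum_const, card_univ, Fintype.card_fin, smul_eq_mul]
        rw [this, ← sum_add_distrib]
        refine sum_congr rfl fun j _ => ?_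
        have := hz j
        omega
      have h4 : k * R.r F < k * I.card := Nat.mul_lt_mul_of_pos_left hlt hk
      omega
    obtain ⟨j, hj⟩ := hex
    set Y0 := (blkU b I ∩ F).filter (fun x => t x = j) with hY0
    have hr0 : R.r Y0 = Y0.card :=
      le_antisymm (R.le_card Y0) (hind j Y0 (fun x hx => (mem_filter.1 hx).2))
    have hYF : Y0 ⊆ F := fun x hx => (mem_inter.1 (mem_filter.1 hx).1).2
    obtain ⟨Q, hQF, hQc, hQcl⟩ := exists_extend hF (R.r F - Y0.card) Y0 hYF (by rw [hr0])
    refine ⟨j, (blkU b I \ F).filter (fun x => t x = j), Q, ?_, ?_⟩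
    · unfold Xfam
      have e1 : (blkU b I ∩ univ.filter (fun x => t x = j)) \
          ((blkU b I \ F).filter (fun x => t x = j)) = Y0 := by
        ext x
        simp only [hY0, mem_sdiff, mem_inter, mem_filter, mem_univ, true_and]
        tauto
      rw [e1, hQcl]
    · rw [hQc]
      exact hj

end Pool.Agent.Helper13.MT
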